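import Mathlib

/-!
# Number of distinct products under permutation of factors

For every `n` and every `1 ≤ k ≤ n!` there are a group and `n` pairwise distinct elements with
exactly `k` products over all orderings.  The group is nilpotent of class at most two, a central
extension of `ℤ^ℕ` by `ℤ/k`; the products are read off from the Lehmer code of the ordering.
-/

namespace Pool.Agent.Results.MP_71df81_al.AllCounts

/-- The bilinear form `B(v,w) = ∑_{i<j<n} v_j w_i j!` with values in `ℤ/k`. -/
def B (n k : ℕ) (v w : ℕ → ℤ) : ZMod k :=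
  ∑ j ∈ Finset.range n, ∑ i ∈ Finset.range j,
    ((v j * w i * (j.factorial : ℤ) : ℤ) : ZMod k)

lemma B_add_left (n k : ℕ) (v v' w : ℕ → ℤ) : B n k (v + v') w = B n k v w + B n k v' w := by
  simp only [B, ← Finset.sum_add_distrib]
  refine Finset.sum_congr rfl fun j _ => Finset.sum_congr rfl fun i _ => ?_
  simp only [Pi.add_apply]; push_cast; ring

lemma B_add_right (n k : ℕ) (v w w' : ℕ → ℤ) : B n k v (w + w') = B n k v w + B n k v w' := by
  simp only [B, ← Finset.sum_add_distrib]
  refine Finset.sum_congr rfl fun j _ => Finset.sum_congr rfl fun i _ => ?_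
  simp only [Pi.add_apply]; push_cast; ring

lemma B_zero_left (n k : ℕ) (w : ℕ → ℤ) : B n k 0 w = 0 := by simp [B]

lemma B_zero_right (n k : ℕ) (w : ℕ → ℤ) : B n k w 0 = 0 := by simp [B]

lemma B_neg_left (n k : ℕ) (v w : ℕ → ℤ) : B n k (-v) w = - B n k v w := by
  simp [B, Finset.sum_neg_distrib]

/-- The underlying set `ℤ^ℕ × ℤ/k` of the central extension. -/
structure E (n k : ℕ) where
  /-- the vector part -/
  v : ℕ → ℤ
  /-- the central part -/
  a : ZMod k

variable {n k : ℕ}

@[ext] lemma E.ext' {x y : E n k} (h1 : x.v = y.v) (h2 : x.a = y.a) : x = y := by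
  cases x; cases y; simp_all

instance : Mul (E n k) := ⟨fun x y => ⟨x.v + y.v, x.a + y.a + B n k x.v y.v⟩⟩
instance : One (E n k) := ⟨⟨0, 0⟩⟩
instance : Inv (E n k) := ⟨fun x => ⟨-x.v, -x.a + B n k x.v x.v⟩⟩

@[simp] lemma mul_v (x y : E n k) : (x * y).v = x.v + y.v := rfl
@[simp] lemma mul_a (x y : E n k) : (x * y).a = x.a + y.a + B n k x.v y.v := rfl
@[simp] lemma one_v : (1 : E n k).v = 0 := rfl
@[simp] lemma one_a : (1 : E n k).a = 0 := rfl
@[simp] lemma inv_v (x : E n k) : (x⁻¹).v = -x.v := rfl
@[simp] lemma inv_a (x : E n k) : (x⁻¹).a = -x.a + B n k x.v x.v := rfl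

instance : Group (E n k) := Group.ofLeftAxioms
  (by
    intro x y z
    ext1
    · simp [add_assoc]
    · simp only [mul_a, mul_v, B_add_left, B_add_right]; ring)
  (by
    intro x
    ext1
    · simp
    · simp [B_zero_left])
  (by
    intro x
    ext1
    · simp
    · simp [B_neg_left])

/-- The generators. -/
def gen (n k : ℕ) (i : ℕ) : E n k := ⟨Pi.single i 1, 0⟩

lemma gen_inj (n k : ℕ) : Function.Injective (gen n k) := by
  intro i j h
  have h1 : (Pi.single i (1 : ℤ) : ℕ → ℤ) = Pi.single j 1 := congrArg E.v h
  by_contra hij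
  have h2 := congrFun h1 i
  rw [Pi.single_eq_same, Pi.single_eq_of_ne hij] at h2
  exact one_ne_zero h2

/-- The weight of a list: `∑ a! · #{b < a after a}`. -/
def W : List ℕ → ℕ
  | [] => 0
  | a :: l => l.countP (· < a) * a.factorial + W l

lemma B_single_sum (n k : ℕ) (a : ℕ) (ha : a < n) (w : ℕ → ℤ) :
    B n k (Pi.single a 1) w = ((∑ i ∈ Finset.range a, w i * (a.factorial : ℤ) : ℤ) : ZMod k) := by
  unfold B
  rw [Finset.sum_eq_single a]
  · push_cast
    refine Finset.sum_congr rfl fun i _ => ?_
    simp
  · intro j _ hj
    refine Finset.sum_eq_zero fun i _ => ?_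
    simp [Pi.single_eq_of_ne hj]
  · intro h; exact absurd (Finset.mem_range.mpr ha) h

lemma prod_v (l : List ℕ) : ((l.map (gen n k)).prod).v = fun i => (l.count i : ℤ) := by
  induction l with
  | nil => ext i; simp
  | cons a l ih =>
    rw [List.map_cons, List.prod_cons, mul_v, ih]
    ext i
    simp only [gen, Pi.add_apply, List.count_cons]
    by_cases h : a = i
    · subst h; simp; ring
    · rw [Pi.single_eq_of_ne (Ne.symm h)]
      simp [h]

lemma sum_count (l : List ℕ) (a : ℕ) :
    ∑ i ∈ Finset.range a, (l.count i : ℤ) = (l.countP (· < a) : ℤ) := by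
  induction l with
  | nil => simp
  | cons b l ih =>
    simp only [List.count_cons, List.countP_cons, Nat.cast_add, Finset.sum_add_distrib, ih]
    congr 1
    by_cases h : b < a
    · rw [Finset.sum_eq_single b]
      · simp [h]
      · intro i _ hi; simp [Ne.symm hi]
      · intro h'; exact absurd (Finset.mem_range.mpr h) h'
    · rw [Finset.sum_eq_zero]
      · simp [h]
      · intro i hi
        have : b ≠ i := by rintro rfl; exact h (Finset.mem_range.mp hi)
        simp [this]

lemma prod_a (l : List ℕ) (hl : ∀ a ∈ l, a < n) : ((l.map (gen n k)).prod).a = (W l : ZMod k) := by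
  induction l with
  | nil => simp [W]
  | cons a l ih =>
    rw [List.map_cons, List.prod_cons, mul_a, ih (fun b hb => hl b (List.mem_cons_of_mem _ hb)),
      prod_v]
    simp only [gen, W]
    rw [B_single_sum n k a (hl a (List.mem_cons_self ..)), ← Finset.sum_mul, sum_count]
    push_cast
    ring

lemma W_insert (m : ℕ) (l1 l2 : List ℕ) (h1 : ∀ a ∈ l1, a < m) (h2 : ∀ a ∈ l2, a < m) :
    W (l1 ++ m :: l2) = W (l1 ++ l2) + l2.length * m.factorial := by
  induction l1 with
  | nil =>
    simp only [List.nil_append, W]
    have : l2.countP (· < m) = l2.length := by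
      rw [List.countP_eq_length]; intro a ha; simpa using h2 a ha
    rw [this]; ring
  | cons a l1 ih =>
    simp only [List.cons_append, W]
    rw [ih (fun b hb => h1 b (List.mem_cons_of_mem _ hb))]
    have : ¬ (m < a) := not_lt.mpr (h1 a (List.mem_cons_self ..)).le
    simp only [List.countP_append, List.countP_cons]
    simp [this]
    ring

lemma W_lt (m : ℕ) (l : List ℕ) (hl : l.Perm (List.range m)) : W l < m.factorial := by
  induction m generalizing l with
  | zero =>
    have : l = [] := by simpa using hl
    subst this; simp [W]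
  | succ m ih =>
    have hm : m ∈ l := hl.mem_iff.mpr (List.mem_range.mpr (Nat.lt_succ_self m))
    obtain ⟨l1, l2, rfl⟩ := List.append_of_mem hm
    have hp : (m :: (l1 ++ l2)).Perm (m :: List.range m) := by
      refine (List.perm_middle.symm).trans (hl.trans ?_)
      rw [List.range_succ]
      exact List.perm_append_singleton _ _
    have hp' : (l1 ++ l2).Perm (List.range m) := (List.perm_cons m).mp hp
    have hlt : ∀ a ∈ l1 ++ l2, a < m := fun a ha => List.mem_range.mp (hp'.mem_iff.mp ha)
    rw [W_insert m l1 l2 (fun a ha => hlt a (List.mem_append_left _ ha))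
      (fun a ha => hlt a (List.mem_append_right _ ha))]
    have hlen : l2.length ≤ m := by
      have := hp'.length_eq
      rw [List.length_append, List.length_range] at this
      omega
    have := ih _ hp'
    rw [Nat.factorial_succ]
    nlinarith [Nat.mul_le_mul_right m.factorial hlen]

lemma exists_W (m : ℕ) (r : ℕ) (hr : r < m.factorial) :
    ∃ l : List ℕ, l.Perm (List.range m) ∧ W l = r := by
  induction m generalizing r with
  | zero =>
    refine ⟨[], by simp, ?_⟩
    simp at hr; simp [W, hr]
  | succ m ih =>
    have hpos := Nat.factorial_pos m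
    obtain ⟨l, hl, hW⟩ := ih (r % m.factorial) (Nat.mod_lt _ hpos)
    have hq : r / m.factorial ≤ m := by
      rw [Nat.factorial_succ] at hr
      exact Nat.lt_succ_iff.mp (Nat.div_lt_of_lt_mul (by rwa [mul_comm] at hr))
    have hlen : l.length = m := by rw [hl.length_eq, List.length_range]
    refine ⟨l.take (m - r / m.factorial) ++ m :: l.drop (m - r / m.factorial), ?_, ?_⟩
    · refine List.perm_middle.trans ?_
      rw [List.take_append_drop, List.range_succ]
      exact (List.Perm.cons m hl).trans (List.perm_append_singleton _ _).symm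
    · have hlt : ∀ a ∈ l, a < m := fun a ha => List.mem_range.mp (hl.mem_iff.mp ha)
      rw [W_insert m _ _ (fun a ha => hlt a (List.mem_of_mem_take ha))
        (fun a ha => hlt a (List.mem_of_mem_drop ha)), List.take_append_drop, hW,
        List.length_drop, hlen]
      have : m - (m - r / m.factorial) = r / m.factorial := Nat.sub_sub_self hq
      rw [this, mul_comm]
      exact Nat.mod_add_div _ _

/-- **Every count is attained**: for all `n` and all `k` with `1 ≤ k ≤ n!` there are a group `G`
and pairwise distinct `g_1, …, g_n ∈ G` such that the set of products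
`g_{σ(1)} ⋯ g_{σ(n)}`, `σ ∈ S_n`, has exactly `k` elements. -/
theorem result : ∀ n k : ℕ, 1 ≤ k → k ≤ n.factorial →
    ∃ (G : Type) (_ : Group G) (g : Fin n → G), Function.Injective g ∧
      (Set.range fun σ : Equiv.Perm (Fin n) =>
        (List.ofFn fun i => g (σ i)).prod).ncard = k := by
  intro n k hk hkn
  refine ⟨E n k, inferInstance, fun i => gen n k i, ?_, ?_⟩
  · intro i j h
    exact Fin.ext (gen_inj n k h)
  have : NeZero k := ⟨by omega⟩
  have key : (Set.range fun σ : Equiv.Perm (Fin n) =>
      (List.ofFn fun i => gen n k (σ i)).prod) =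
      Set.range (fun z : ZMod k => (⟨fun i => if i < n then 1 else 0, z⟩ : E n k)) := by
    have hv : ∀ l : List ℕ, l.Perm (List.range n) →
        (l.map (gen n k)).prod = ⟨fun i => if i < n then 1 else 0, (W l : ZMod k)⟩ := by
      intro l hl
      have hlt : ∀ a ∈ l, a < n := fun a ha => List.mem_range.mp (hl.mem_iff.mp ha)
      apply E.ext'
      · rw [prod_v]
        ext i
        rw [hl.count_eq, List.nodup_range.count]
        by_cases h : i < n <;> simp [h]
      · exact prod_a l hlt
    ext x
    constructor
    · rintro ⟨σ, rfl⟩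
      have h1 : (List.ofFn fun i => gen n k (σ i)) =
          (List.ofFn fun i : Fin n => ((σ i : Fin n) : ℕ)).map (gen n k) := by
        rw [List.map_ofFn]; rfl
      have h2 : (List.ofFn fun i : Fin n => ((σ i : Fin n) : ℕ)).Perm (List.range n) := by
        have h3 : (List.ofFn fun i : Fin n => ((σ i : Fin n) : ℕ)).Nodup := by
          rw [List.nodup_ofFn]
          intro i j h
          exact σ.injective (Fin.ext h)
        rw [List.perm_ext_iff_of_nodup h3 List.nodup_range]
        intro a
        rw [List.mem_ofFn, List.mem_range]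
        constructor
        · rintro ⟨i, rfl⟩; exact (σ i).isLt
        · intro ha
          exact ⟨σ.symm ⟨a, ha⟩, by simp⟩
      refine ⟨(W (List.ofFn fun i : Fin n => ((σ i : Fin n) : ℕ)) : ZMod k), ?_⟩
      simp only [h1]
      rw [hv _ h2]
    · rintro ⟨z, rfl⟩
      obtain ⟨l, hl, hW⟩ := exists_W n z.val (lt_of_lt_of_le (ZMod.val_lt z) hkn)
      have hlen : l.length = n := by rw [hl.length_eq, List.length_range]
      have hlt : ∀ a ∈ l, a < n := fun a ha => List.mem_range.mp (hl.mem_iff.mp ha)
      have hnd : l.Nodup := hl.nodup_iff.mpr List.nodup_range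
      let f : Fin n → Fin n := fun i =>
        ⟨l.get (Fin.cast hlen.symm i), hlt _ (List.get_mem _ _)⟩
      have hf : Function.Injective f := by
        intro i j h
        have h1 : l.get (Fin.cast hlen.symm i) = l.get (Fin.cast hlen.symm j) :=
          congrArg Fin.val h
        have h2 := (List.nodup_iff_injective_get.mp hnd) h1
        exact Fin.ext (by simpa using congrArg Fin.val h2)
      refine ⟨Equiv.ofBijective f (Finite.injective_iff_bijective.mp hf), ?_⟩
      have h1 : (List.ofFn fun i => gen n k (Equiv.ofBijective f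
          (Finite.injective_iff_bijective.mp hf) i)) = l.map (gen n k) := by
        apply List.ext_get
        · simp [hlen]
        · intro i h1 h2
          simp [f]
      simp only [h1]
      rw [hv l hl, hW, ZMod.natCast_zmod_val]
  rw [key, Set.ncard_range_of_injective, Nat.card_eq_fintype_card, ZMod.card]
  intro a b h
  exact congrArg E.a h

end Pool.Agent.Results.MP_71df81_al.AllCounts
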